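import Pool.Agent.helper91.ADV.SpecL

/-!
# Row adv:CNT (MP_069684_lc): the number of changes of the NOT-vector
-/

set_option autoImplicit false

namespace Pool.Agent.ADV

open Finset Pool.Agent.helper55.NT Pool.Agent.LNB Pool.Agent.NG Pool.Agent.PB Pool.Agent.PC

theorem CNT : CNT_stmt := by
  intro n s u K L C hC z hz hag
  set I : Finset ℕ := (range L).filter fun i => C.notVals (z (i + 1)) ≠ C.notVals (z i) with hI
  have key : ∀ a j : ℕ, a ≤ j → j ∈ I → C.notVals (z a) ≠ C.notVals (z (j + 1)) := by
    intro a j haj hj h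
    have h1 := (conv C (hz haj) (hz (Nat.le_succ j)) h).1
    have h2 : C.notVals (z (j + 1)) ≠ C.notVals (z j) := (Finset.mem_filter.1 hj).2
    exact h2 (by rw [h1, h])
  have hinj : Set.InjOn (fun i => C.notVals (z (i + 1))) (I : Set ℕ) := by
    intro i hi j hj hij
    rcases lt_trichotomy i j with h | h | h
    · exact absurd hij (key (i + 1) j h hj)
    · exact h
    · exact absurd hij.symm (key (j + 1) i h hi)
  set T : Finset (List Bool) := insert (C.notVals (z 0)) (I.image fun i => C.notVals (z (i + 1)))
    with hT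
  have hcard : T.card = I.card + 1 := by
    rw [hT, Finset.card_insert_of_notMem, Finset.card_image_of_injOn hinj]
    intro h
    obtain ⟨j, hj, hj'⟩ := Finset.mem_image.1 h
    exact key 0 j (Nat.zero_le j) hj hj'.symm
  have hsub : (T : Set (List Bool)) ⊆ Set.range fun i => C.notVals (z i) := by
    intro t ht
    rw [hT, Finset.coe_insert, Set.mem_insert_iff] at ht
    rcases ht with ht | ht
    · exact ⟨0, ht.symm⟩
    · obtain ⟨i, _, hi⟩ := Finset.mem_image.1 (Finset.mem_coe.1 ht)
      exact ⟨i + 1, hi⟩
  have h1 := (Set.encard_le_encard hsub).trans (hC z hz hag)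
  rw [Set.encard_coe_eq_coe_finsetCard, hcard] at h1
  exact_mod_cast h1

end Pool.Agent.ADV
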