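import Pool.Agent.helper91.ADV.SpecL

/-!
# Row adv:STG (MP_069684_lc): one stage
-/

set_option autoImplicit false

namespace Pool.Agent.ADV

open Finset Pool.Agent.helper55.NT Pool.Agent.LNB Pool.Agent.NG Pool.Agent.PB Pool.Agent.PC

theorem STG_prog {G G' : Set Gate} (h : G ⊆ G') {n : ℕ} {l : List (BF n)} (hp : Prog G n l) :
    Prog G' n l := by
  induction hp with
  | nil => exact Prog.nil
  | step l g a _ hg ha ih => exact Prog.step l g a ih (h hg) ha

theorem STG_upTo {m m' : ℕ} (h : m ≤ m') : upTo monG m ⊆ upTo monG m' :=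
  fun _ hg => ⟨hg.1, hg.2.trans h⟩

theorem STG_mono {N : ℕ} {D : (Fin N → Bool) → ℝ} (hD : IsDist D) {u v : (Fin N → Bool) → Bool}
    (h : ∀ x, u x = true → v x = true) : pr D u ≤ pr D v := by
  unfold pr
  apply Finset.sum_le_sum
  intro x _
  by_cases hu : u x = true
  · rw [if_pos hu, if_pos (h x hu)]
  · rw [if_neg hu]
    split_ifs
    · exact hD.1 x
    · exact le_rfl

theorem STG_or {N : ℕ} {D : (Fin N → Bool) → ℝ} (hD : IsDist D) {u v w : (Fin N → Bool) → Bool}
    (h : ∀ x, u x = true → v x = true ∨ w x = true) : pr D u ≤ pr D v + pr D w := by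
  unfold pr
  rw [← Finset.sum_add_distrib]
  apply Finset.sum_le_sum
  intro x _
  have h0 := hD.1 x
  by_cases hu : u x = true
  · rw [if_pos hu]
    rcases h x hu with h1 | h1
    · rw [if_pos h1]
      split_ifs <;> linarith
    · rw [if_pos h1]
      split_ifs <;> linarith
  · rw [if_neg hu]
    split_ifs <;> linarith

theorem STG_one {N : ℕ} {D : (Fin N → Bool) → ℝ} (hD : IsDist D) :
    pr D (fun _ => true) = 1 := by
  unfold pr
  rw [← hD.2]
  simp

theorem STG_nn {N : ℕ} {D : (Fin N → Bool) → ℝ} (hD : IsDist D) (u : (Fin N → Bool) → Bool) :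
    0 ≤ pr D u := by
  unfold pr
  apply Finset.sum_nonneg
  intro x _
  split_ifs
  · exact hD.1 x
  · exact le_rfl

theorem STG : STG_stmt := by
  intro n s d m N C o Dp Dn ε b X hF hm hDp hDn hε hlow hX hb
  obtain ⟨L, hL, hlen, hk, hbad, hc⟩ := build C hF b X hX
  have hup : upTo monG (max d 2) ⊆ upTo monG m := STG_upTo hm
  have hdec : (fun y => bad C b (X y)) = fun y => decide (C.notVals (X y) ≠ C.notVals b) := by
    funext y
    cases hy : bad C b (X y)
    · have := eq_of_not_bad C (hb y) hy
      simp [this]
    · have : C.notVals (X y) ≠ C.notVals b := by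
        intro h
        have h1 := (star_of_eq C h).2
        rw [h1] at hy
        exact Bool.false_ne_true hy
      simp [this]
  have hstar : ∀ y, bad C b (X y) = false → starVal C b (X y) = C.val (X y) := fun y hy =>
    (star_of_eq C (eq_of_not_bad C (hb y) hy)).1
  rw [← hdec]
  have hb1 : pr Dp (fun y => bad C b (X y)) ≤ pr Dn (fun y => bad C b (X y)) + ε :=
    hlow _ ⟨L, STG_prog hup hL, by omega, hbad⟩
  have hor := prog_or hL hbad (hk o)
  have hv1 : pr Dp (fun y => bad C b (X y) || starVal C b (X y) o) ≤
      pr Dn (fun y => bad C b (X y) || starVal C b (X y) o) + ε :=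
    hlow _ ⟨_, STG_prog hup hor, by simp; omega, Or.inl (List.mem_cons.2 (Or.inl rfl))⟩
  constructor
  · have h1 : pr Dp (fun y => C.val (X y) o) ≤ pr Dp (fun y => bad C b (X y) || starVal C b (X y) o) := by
      apply STG_mono hDp
      intro y hy
      cases hy' : bad C b (X y)
      · rw [hstar y hy']
        simpa using hy
      · simp
    have h2 : pr Dn (fun y => bad C b (X y) || starVal C b (X y) o) ≤
        pr Dn (fun y => C.val (X y) o) + pr Dn (fun y => bad C b (X y)) := by
      apply STG_or hDn
      intro y hy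
      cases hy' : bad C b (X y)
      · left
        rw [hy', hstar y hy'] at hy
        simpa using hy
      · right
        rfl
    linarith
  · have h0 := STG_nn hDp (fun y => C.val (X y) o)
    have h0' := STG_nn hDn (fun y => bad C b (X y))
    split_ifs with hbo
    · have h1 : (1 : ℝ) ≤ pr Dp (fun y => C.val (X y) o) + pr Dp (fun y => bad C b (X y)) := by
        rw [← STG_one hDp]
        apply STG_or hDp
        intro y _
        cases hy' : bad C b (X y)
        · left
          have h2 := star_mono C b (hb y) o
          rw [star_self C b, hbo, hstar y hy'] at h2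
          exact Bool.eq_true_of_true_le h2
        · right
          rfl
      linarith
    · linarith

end Pool.Agent.ADV
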