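import Pool.Agent.helper91.ADV.SpecL

/-!
# Row adv:SUM (MP_069684_lc): the sum over the stages
-/

set_option autoImplicit false

namespace Pool.Agent.ADV

open Finset Pool.Agent.helper55.NT Pool.Agent.LNB Pool.Agent.NG Pool.Agent.PB Pool.Agent.PC

theorem SUM_cut_upd {N L : ℕ} (w : Fin L → Fin N → Bool) (i : Fin L) (y : Fin N → Bool) :
    cut (Function.update w i y) i = cut w i := by
  funext j
  unfold cut
  by_cases h : j < L
  · rw [dif_pos h, dif_pos h]
    by_cases hj : j < i
    · rw [if_pos hj, if_pos hj, Function.update_of_ne]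
      intro h1
      rw [← h1] at hj
      exact lt_irrefl _ hj
    · rw [if_neg hj, if_neg hj]
  · rw [dif_neg h, dif_neg h]

theorem SUM_cut_mono {N L : ℕ} (w : Fin L → Fin N → Bool) {i i' : ℕ} (h : i ≤ i') (j : ℕ)
    (k : Fin N) : cut w i j k ≤ cut w i' j k := by
  unfold cut
  by_cases hj : j < L
  · rw [dif_pos hj, dif_pos hj]
    by_cases h1 : j < i
    · rw [if_pos h1, if_pos (h1.trans_le h)]
    · rw [if_neg h1]
      exact Bool.false_le _
  · rw [dif_neg hj, dif_neg hj]

theorem SUM_Fmono {n N : ℕ} {F : (ℕ → Fin N → Bool) → Fin n → Bool}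
    (hF : ∀ i, (∀ c, F c i = false) ∨ ∃ l k, ∀ c, F c i = c l k) {c c' : ℕ → Fin N → Bool}
    (h : ∀ j k, c j k ≤ c' j k) : F c ≤ F c' := by
  intro i
  rcases hF i with h1 | ⟨l, k, h1⟩
  · rw [h1, h1]
  · rw [h1, h1]
    exact h l k

theorem SUM_pr {N : ℕ} (D : (Fin N → Bool) → ℝ) (u : (Fin N → Bool) → Bool) :
    pr D u = ∑ y, D y * (if u y = true then 1 else 0) := by
  unfold pr
  apply Finset.sum_congr rfl
  intro y _
  split_ifs <;> simp

theorem SUM (h1 : STG_stmt) (h2 : CNT_stmt) (h3 : FUB_stmt) : SUM_stmt := by
  intro n s d m N L K u C o Dp Dn ε F hC hm hDp hDn hε hlow hF hFu hK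
  obtain ⟨hw0, hw1, hfub⟩ := h3 N L Dn hDn
  -- the functions
  set g : (Fin n → Bool) → Bool := fun x => C.val x o with hg
  set e : ℕ → ℝ := fun i => ∑ w : Fin L → Fin N → Bool, wgt Dn w *
    (if C.notVals (F (cut w (i + 1))) ≠ C.notVals (F (cut w i)) then 1 else 0) with he
  set c : ℕ → ℝ := fun i => ∑ w : Fin L → Fin N → Bool, wgt Dn w *
    (if g (F (cut w i)) = true then 1 else 0) with hc
  have hqq : ∀ i : Fin L, qq F Dn g i = c (i + 1) := fun i => rfl
  -- one stage
  have hstage : ∀ (i : Fin L) (w : Fin L → Fin N → Bool),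
      pr Dp (fun y => g (F (cut (Function.update w i y) (i + 1)))) ≤
        pr Dn (fun y => g (F (cut (Function.update w i y) (i + 1)))) +
          pr Dn (fun y => decide (C.notVals (F (cut (Function.update w i y) (i + 1))) ≠
            C.notVals (F (cut w i)))) + ε ∧
      (if g (F (cut w i)) = true then (1 : ℝ) else 0) ≤
        pr Dp (fun y => g (F (cut (Function.update w i y) (i + 1)))) +
          pr Dn (fun y => decide (C.notVals (F (cut (Function.update w i y) (i + 1))) ≠
            C.notVals (F (cut w i)))) + ε := by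
    intro i w
    refine h1 n s d m N C o Dp Dn ε (F (cut w i))
      (fun y => F (cut (Function.update w i y) (i + 1))) hC hm hDp hDn hε hlow ?_ ?_
    · intro a
      rcases hF a with h | ⟨l, k, h⟩
      · exact Or.inl ⟨false, funext fun y => h _⟩
      · by_cases hl : l < L
        · by_cases hli : l < (i : ℕ) + 1
          · by_cases hlii : (⟨l, hl⟩ : Fin L) = i
            · right
              refine ⟨k, funext fun y => ?_⟩
              rw [h]
              unfold cut
              rw [dif_pos hl, if_pos hli, hlii, Function.update_self]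
            · left
              refine ⟨w ⟨l, hl⟩ k, funext fun y => ?_⟩
              rw [h]
              unfold cut
              rw [dif_pos hl, if_pos hli, Function.update_of_ne hlii]
          · left
            refine ⟨false, funext fun y => ?_⟩
            rw [h]
            unfold cut
            rw [dif_pos hl, if_neg hli]
        · left
          refine ⟨false, funext fun y => ?_⟩
          rw [h]
          unfold cut
          rw [dif_neg hl]
    · intro y
      apply SUM_Fmono hF
      intro j k
      rw [← SUM_cut_upd w i y]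
      exact SUM_cut_mono _ (Nat.le_succ _) j k
  -- sums over `w`
  have hsq : ∀ i : Fin L, ∑ w : Fin L → Fin N → Bool, wgt Dn w *
      pr Dn (fun y => g (F (cut (Function.update w i y) (i + 1)))) = c (i + 1) := by
    intro i
    rw [hc]
    show _ = ∑ w : Fin L → Fin N → Bool, wgt Dn w * (if g (F (cut w (i + 1))) = true then 1 else 0)
    rw [hfub i (fun w => if g (F (cut w (i + 1))) = true then 1 else 0)]
    apply Finset.sum_congr rfl
    intro w _
    rw [SUM_pr]
  have hse : ∀ i : Fin L, ∑ w : Fin L → Fin N → Bool, wgt Dn w *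
      pr Dn (fun y => decide (C.notVals (F (cut (Function.update w i y) (i + 1))) ≠
            C.notVals (F (cut w i)))) = e i := by
    intro i
    rw [he]
    show _ = ∑ w : Fin L → Fin N → Bool, wgt Dn w *
      (if C.notVals (F (cut w (i + 1))) ≠ C.notVals (F (cut w i)) then 1 else 0)
    rw [hfub i (fun w => if C.notVals (F (cut w (i + 1))) ≠ C.notVals (F (cut w i)) then 1 else 0)]
    apply Finset.sum_congr rfl
    intro w _
    rw [SUM_pr]
    congr 1
    apply Finset.sum_congr rfl
    intro y _
    rw [SUM_cut_upd]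
    simp only [decide_eq_true_eq]
  have hpp : ∀ i : Fin L, pp F Dp Dn g i ≤ c (i + 1) + e i + ε := by
    intro i
    have h4 : pp F Dp Dn g i ≤ ∑ w : Fin L → Fin N → Bool, wgt Dn w *
        (pr Dn (fun y => g (F (cut (Function.update w i y) (i + 1)))) +
          pr Dn (fun y => decide (C.notVals (F (cut (Function.update w i y) (i + 1))) ≠
            C.notVals (F (cut w i)))) + ε) := by
      unfold pp
      apply Finset.sum_le_sum
      intro w _
      exact mul_le_mul_of_nonneg_left (hstage i w).1 (hw0 w)
    refine h4.trans (le_of_eq ?_)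
    simp only [mul_add, Finset.sum_add_distrib]
    rw [hsq, hse, ← Finset.sum_mul, hw1, one_mul]
  have hcc : ∀ i : Fin L, c i ≤ pp F Dp Dn g i + e i + ε := by
    intro i
    have h4 : c i ≤ ∑ w : Fin L → Fin N → Bool, wgt Dn w *
        (pr Dp (fun y => g (F (cut (Function.update w i y) (i + 1)))) +
          pr Dn (fun y => decide (C.notVals (F (cut (Function.update w i y) (i + 1))) ≠
            C.notVals (F (cut w i)))) + ε) := by
      rw [hc]
      apply Finset.sum_le_sum
      intro w _
      exact mul_le_mul_of_nonneg_left (hstage i w).2 (hw0 w)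
    refine h4.trans (le_of_eq ?_)
    simp only [mul_add, Finset.sum_add_distrib]
    rw [hse, ← Finset.sum_mul, hw1, one_mul]
    rfl
  -- the sum of the `e i`
  have hesum : ∑ i : Fin L, e i ≤ (K : ℝ) - 1 := by
    have h5 : ∑ i : Fin L, e i = ∑ w : Fin L → Fin N → Bool, wgt Dn w *
        ∑ i : Fin L, (if C.notVals (F (cut w (i + 1))) ≠ C.notVals (F (cut w i)) then (1 : ℝ) else 0) := by
      rw [he, Finset.sum_comm]
      apply Finset.sum_congr rfl
      intro w _
      rw [Finset.mul_sum]
    have h6 : ∀ w : Fin L → Fin N → Bool,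
        ∑ i : Fin L, (if C.notVals (F (cut w (i + 1))) ≠ C.notVals (F (cut w i)) then (1 : ℝ) else 0) ≤
          (K : ℝ) - 1 := by
      intro w
      have h7 := h2 n s u K L C hK (fun i => F (cut w i))
        (fun a b hab => SUM_Fmono hF fun j k => SUM_cut_mono w hab j k)
        (fun i j a ha => by
          show F (cut w i) a = F (cut w j) a
          rw [hFu _ a ha, hFu _ a ha])
      have h8 : ∑ i : Fin L, (if C.notVals (F (cut w (i + 1))) ≠ C.notVals (F (cut w i))
          then (1 : ℝ) else 0) = (((range L).filter fun i =>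
            C.notVals (F (cut w (i + 1))) ≠ C.notVals (F (cut w i))).card : ℝ) := by
        rw [Finset.card_filter, Nat.cast_sum]
        rw [← Fin.sum_univ_eq_sum_range (fun i => ((if C.notVals (F (cut w (i + 1))) ≠
          C.notVals (F (cut w i)) then 1 else 0 : ℕ) : ℝ)) L]
        apply Finset.sum_congr rfl
        intro i _
        split_ifs <;> simp
      rw [h8]
      have h9 : ((((range L).filter fun i =>
            C.notVals (F (cut w (i + 1))) ≠ C.notVals (F (cut w i))).card : ℕ) : ℝ) + 1 ≤ K := by
        exact_mod_cast h7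
      linarith
    rw [h5]
    calc ∑ w : Fin L → Fin N → Bool, wgt Dn w * ∑ i : Fin L,
          (if C.notVals (F (cut w (i + 1))) ≠ C.notVals (F (cut w i)) then (1 : ℝ) else 0)
        ≤ ∑ w : Fin L → Fin N → Bool, wgt Dn w * ((K : ℝ) - 1) :=
          Finset.sum_le_sum fun w _ => mul_le_mul_of_nonneg_left (h6 w) (hw0 w)
      _ = (K : ℝ) - 1 := by rw [← Finset.sum_mul, hw1, one_mul]
  have hctel : ∑ i : Fin L, (c (i + 1) - c i) ≤ 1 := by
    rw [Fin.sum_univ_eq_sum_range (fun i => c (i + 1) - c i) L, Finset.sum_range_sub]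
    have h10 : c L ≤ 1 := by
      rw [hc]
      calc ∑ w : Fin L → Fin N → Bool, wgt Dn w * (if g (F (cut w L)) = true then (1 : ℝ) else 0)
          ≤ ∑ w : Fin L → Fin N → Bool, wgt Dn w := by
            apply Finset.sum_le_sum
            intro w _
            have := hw0 w
            split_ifs <;> nlinarith
        _ = 1 := hw1
    have h11 : 0 ≤ c 0 := by
      rw [hc]
      apply Finset.sum_nonneg
      intro w _
      have := hw0 w
      split_ifs <;> nlinarith
    linarith
  have hεs : ∑ _i : Fin L, ε = L * ε := by simp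
  constructor
  · have h12 : ∑ i : Fin L, (pp F Dp Dn g i - qq F Dn g i) ≤ ∑ i : Fin L, (e i + ε) := by
      apply Finset.sum_le_sum
      intro i _
      have := hpp i
      rw [hqq]
      linarith
    rw [Finset.sum_add_distrib, hεs] at h12
    linarith
  · have h13 : -∑ i : Fin L, ((c (i + 1) - c i) + (e i + ε)) ≤
        ∑ i : Fin L, (pp F Dp Dn g i - qq F Dn g i) := by
      rw [← Finset.sum_neg_distrib]
      apply Finset.sum_le_sum
      intro i _
      have := hcc i
      rw [hqq]
      linarith
    rw [Finset.sum_add_distrib, Finset.sum_add_distrib, hεs] at h13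
    linarith

end Pool.Agent.ADV
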